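import Pool.Agent.Lib.MP_26f572_ag.Main

/-!
# The Hilbert scheme of four points of a smooth quasi-projective scheme is normal and
Cohen–Macaulay (question Q1 of MP_26f572_ag)

Let `k` be a field (for instance the complex numbers) and let `X` be a smooth quasi-projective
scheme over `k`, of any dimension.  Let `H = X^[4]` be the Hilbert scheme of four points of `X`,
i.e. the scheme which represents the functor of flat families of closed subschemes of length `4`
of `X`.  We prove that `H` is normal and Cohen–Macaulay.

Outline of the proof.  For a ring `R` over `k` and `f = (f₁, …, fₙ)` in `R`, the quotients of `R`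
which are free with basis `1, f₁, …, fₙ` are parametrised by an affine scheme `Chart k R f`
(file `Chart`).  For `h` in `H` the fibre of the universal family lies in an affine open
subscheme `U` of `X` (file `QProj`), and `H` is near `h` isomorphic to an open subscheme of a chart
for `R = Γ(X, U)`, `n = 3` (files `LocalBasis`, `FamilyOfPt`, `HilbLocal`).  The chart of `R`
attached to `f` is, after adding `12` polynomial variables and localising, isomorphic to a
localisation of the chart of `R[x₁, x₂, x₃]` attached to the variables (files `ChartPoly`,
`ChartOverlap`), and the latter is smooth over the chart of `k[x₁, x₂, x₃]` attached to the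
variables (file `ChartSmooth`), which is the ring of based associative commutative algebra
structures of rank `4`.  This ring is a polynomial ring in three variables over the homogeneous
coordinate ring of the Grassmannian `Gr(2, 6)` (file `ChartPlucker`, equations checked in `ScNec`,
`ScAssoc`, `ScAlg`), which is a normal domain (`PlNormal`) and a free module of rank `14` over a
polynomial ring in `9` variables, hence Cohen–Macaulay (`PlFree`).  Normality and the
Cohen–Macaulay property ascend and descend along smooth maps (files `Normal`, `CMSmooth`,
`CMFlat`, `CMDescent`, `ChartNormalCM`).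
-/

namespace Pool.Agent.Results.MP_26f572_ag.NormalCohenMacaulay

open CategoryTheory Limits AlgebraicGeometry Pool.Agent.Lib.MP_26f572_ag

universe u

/-- A scheme is normal if all its local rings are integrally closed domains. -/
def IsNormalScheme (H : Scheme.{u}) : Prop :=
  ∀ h : H, IsDomain (H.presheaf.stalk h) ∧ IsIntegrallyClosed (H.presheaf.stalk h)

/-- A scheme is Cohen–Macaulay if it is locally noetherian and all its local rings are
Cohen–Macaulay. -/
structure IsCohenMacaulayScheme (H : Scheme.{u}) : Prop where
  locallyNoetherian : IsLocallyNoetherian H
  stalk : ∀ h : H, IsCMLocal (H.presheaf.stalk h)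

/-- Let `X` be a smooth quasi-projective scheme over a field `k`, and let `H`, with the universal
family `Z ⟶ H`, `Z ⟶ X`, be the Hilbert scheme of four points of `X`.  Then `H` is normal and
Cohen–Macaulay. -/
theorem result {k : Type u} [Field k] {X : Scheme.{u}} (πX : X ⟶ Spec (.of k)) [Smooth πX]
    (hX : IsQuasiProjective πX) {H Z : Scheme.{u}} (πH : H ⟶ Spec (.of k)) (p : Z ⟶ H)
    (q : Z ⟶ X) (hH : IsHilbertScheme πX πH 4 p q) :
    IsNormalScheme H ∧ IsCohenMacaulayScheme H := by
  have hft : LocallyOfFiniteType πH := locallyOfFiniteType πX hX πH 3 p q hH
  have hn : IsLocallyNoetherian H := LocallyOfFiniteType.isLocallyNoetherian πH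
  exact ⟨fun h => ⟨(normal_cm_stalk πX hX πH p q hH h).1, (normal_cm_stalk πX hX πH p q hH h).2.1⟩,
    hn, fun h => (normal_cm_stalk πX hX πH p q hH h).2.2⟩

end Pool.Agent.Results.MP_26f572_ag.NormalCohenMacaulay
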